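import Pool.Agent.H4.FV.OddT

set_option autoImplicit false
set_option linter.unusedVariables false
set_option linter.unusedSectionVars false

/-! `S_qd`: the edges of the standard algebra. -/

namespace Pool.Agent.H358.FV.OddQd

open Pool.Agent.H4.FV.Odd

section

variable {p : ℕ} [Fact p.Prime] {Γ : ℕ → ℕ → Prop}

theorem add_fst' (x y : SA p Γ) (b : Bs Γ) : (x + y).1 b = x.1 b + y.1 b := rfl

theorem smul_fst' (c : ZMod p) (x : SA p Γ) (b : Bs Γ) : (c • x).1 b = c * x.1 b := rfl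

theorem fst_zero_iff (x : SA p Γ) : x.1 = 0 ↔ ∀ b, x.1 b = 0 := by
  constructor
  · intro h b; rw [h]; rfl
  · intro h; ext b; exact h b

theorem ind4 (hct : T_ct p Γ) (x y a b : SA p Γ) : IndA p ![x, y, a, b] ↔
    ∀ c0 c1 c2 c3 : ZMod p, (∀ u, c0 * x.1 u + c1 * y.1 u + c2 * a.1 u + c3 * b.1 u = 0) →
      c0 = 0 ∧ c1 = 0 ∧ c2 = 0 ∧ c3 = 0 := by
  have hl : ∀ c : Fin 4 → ZMod p, ∀ u, (lcA p ![x, y, a, b] c).1 u =
      c 0 * x.1 u + c 1 * y.1 u + c 2 * a.1 u + c 3 * b.1 u := by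
    intro c u
    unfold lcA
    rw [Fin.sum_univ_four]
    rfl
  constructor
  · intro h c0 c1 c2 c3 hc
    by_contra hcon
    refine h ![c0, c1, c2, c3] ?_ ?_
    · by_contra hall
      push Not at hall
      apply hcon
      exact ⟨hall 0, hall 1, hall 2, hall 3⟩
    · rw [hct, fst_zero_iff]
      intro u
      rw [hl]
      exact hc u
  · intro h c hc hz
    rw [hct, fst_zero_iff] at hz
    have := h (c 0) (c 1) (c 2) (c 3) (fun u => by rw [← hl]; exact hz u)
    obtain ⟨i, hi⟩ := hc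
    apply hi
    fin_cases i
    · exact this.1
    · exact this.2.1
    · exact this.2.2.1
    · exact this.2.2.2

theorem ind3 (hct : T_ct p Γ) (x y a : SA p Γ) : IndA p ![x, y, a] ↔
    ∀ c0 c1 c2 : ZMod p, (∀ u, c0 * x.1 u + c1 * y.1 u + c2 * a.1 u = 0) →
      c0 = 0 ∧ c1 = 0 ∧ c2 = 0 := by
  have hl : ∀ c : Fin 3 → ZMod p, ∀ u, (lcA p ![x, y, a] c).1 u =
      c 0 * x.1 u + c 1 * y.1 u + c 2 * a.1 u := by
    intro c u
    unfold lcA
    rw [Fin.sum_univ_three]
    rfl
  constructor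
  · intro h c0 c1 c2 hc
    by_contra hcon
    refine h ![c0, c1, c2] ?_ ?_
    · by_contra hall
      push Not at hall
      apply hcon
      exact ⟨hall 0, hall 1, hall 2⟩
    · rw [hct, fst_zero_iff]
      intro u
      rw [hl]
      exact hc u
  · intro h c hc hz
    rw [hct, fst_zero_iff] at hz
    have := h (c 0) (c 1) (c 2) (fun u => by rw [← hl]; exact hz u)
    obtain ⟨i, hi⟩ := hc
    apply hi
    fin_cases i
    · exact this.1
    · exact this.2.1
    · exact this.2.2

theorem prod_zero (x y a b : SA p Γ) : x * y + a * b = 0 ↔ IsRel (p := p) (Γ := Γ) fun u u' =>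
    (x.1 u * y.1 u' + a.1 u * b.1 u') - (x.1 u' * y.1 u + a.1 u' * b.1 u) := by
  have h2 : (x * y + a * b).2 = (Kr p Γ).mkQ (tn x.1 y.1 + tn a.1 b.1) := by
    rw [map_add]; rfl
  have h1 : (x * y + a * b).1 = 0 := by
    show (x * y).1 + (a * b).1 = 0
    rw [mul_fst, mul_fst, add_zero]
  have h3 : x * y + a * b = 0 ↔ (x * y + a * b).2 = 0 := by
    constructor
    · intro h; rw [h]; rfl
    · intro h; exact Prod.ext h1 h
  rw [h3, h2, Submodule.mkQ_apply, Submodule.Quotient.mk_eq_zero, mem_Kr]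
  exact Iff.rfl

/-- generators -/
noncomputable def gn (b : Bs Γ) : SA p Γ := (Finsupp.single b 1, 0)

theorem gn_self (b : Bs Γ) : (gn b : SA p Γ).1 b = 1 := Finsupp.single_eq_same

theorem gn_ne {b b' : Bs Γ} (h : b' ≠ b) : (gn b : SA p Γ).1 b' = 0 := Finsupp.single_eq_of_ne h

/-- vertices -/
theorem vt_iff (hct : T_ct p Γ) (htri : T_tri p Γ) (x : SA p Γ) : VtA p x ↔
    ∃ v : ℕ, (∀ b, b ≠ Sum.inl (v, 0) → x.1 b = 0) ∧ x.1 (Sum.inl (v, 0)) ≠ 0 := by
  constructor
  · rintro ⟨y, z, h⟩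
    obtain ⟨hi, v, hv, _⟩ := (htri x y z).1 h
    refine ⟨v, hv, fun h0 => ?_⟩
    rw [ind3 hct] at hi
    have := (hi 1 0 0 (fun u => by
      by_cases hu : u = Sum.inl (v, 0)
      · rw [hu, h0]; ring
      · rw [hv u hu]; ring)).1
    exact one_ne_zero this
  · rintro ⟨v, hv, h0⟩
    refine ⟨gn (Sum.inl (v, 1)), gn (Sum.inl (v, 2)), (htri _ _ _).2 ⟨?_, v, hv, ?_⟩⟩
    · rw [ind3 hct]
      intro c0 c1 c2 hc
      have e0 := hc (Sum.inl (v, 0))
      have e1 := hc (Sum.inl (v, 1))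
      have e2 := hc (Sum.inl (v, 2))
      rw [hv (Sum.inl (v, 1)) (by simp), gn_self, gn_ne (by simp)] at e1
      rw [hv (Sum.inl (v, 2)) (by simp), gn_self, gn_ne (by simp)] at e2
      rw [gn_ne (by simp), gn_ne (by simp)] at e0
      have f0 : c0 * x.1 (Sum.inl (v, 0)) = 0 := by linear_combination e0
      rcases mul_eq_zero.1 f0 with f0 | f0
      · exact ⟨f0, by linear_combination e1, by linear_combination e2⟩
      · exact absurd f0 h0
    · intro b hb
      exact ⟨gn_ne (hb 1), gn_ne (hb 2)⟩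

/-- a 2 by 2 system -/
theorem two_two {F : Type} [Field F] {a0 a1 b0 b1 s t : F} (h : a0 * b1 - b0 * a1 ≠ 0)
    (h0 : a0 * t - b0 * s = 0) (h1 : a1 * t - b1 * s = 0) : s = 0 ∧ t = 0 := by
  constructor
  · have : (a0 * b1 - b0 * a1) * s = 0 := by linear_combination a1 * h0 - a0 * h1
    exact (mul_eq_zero.1 this).resolve_left h
  · have : (a0 * b1 - b0 * a1) * t = 0 := by linear_combination b1 * h0 - b0 * h1
    exact (mul_eq_zero.1 this).resolve_left h

/-- from edges to coordinates -/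
theorem qd_mp (hct : T_ct p Γ) (htri : T_tri p Γ) (x y a b : SA p Γ) (h : QdA p x y a b) :
    ∃ q : {q : ℕ × ℕ // Eo Γ q.1 q.2}, ∃ v w : ℕ,
    (∀ b, b ≠ Sum.inl (v, 0) → x.1 b = 0) ∧ x.1 (Sum.inl (v, 0)) ≠ 0 ∧
    (∀ b, b ≠ Sum.inl (w, 0) → y.1 b = 0) ∧ y.1 (Sum.inl (w, 0)) ≠ 0 ∧
    (∀ b', (∀ i, b' ≠ Sum.inr (q, i)) → a.1 b' = 0 ∧ b.1 b' = 0) ∧
    ((v = q.1.1 ∧ w = q.1.2 ∧ x.1 (Sum.inl (v, 0)) * y.1 (Sum.inl (w, 0)) =
        a.1 (Sum.inr (q, 0)) * b.1 (Sum.inr (q, 1)) -
          a.1 (Sum.inr (q, 1)) * b.1 (Sum.inr (q, 0))) ∨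
      (v = q.1.2 ∧ w = q.1.1 ∧ - (x.1 (Sum.inl (v, 0)) * y.1 (Sum.inl (w, 0))) =
        a.1 (Sum.inr (q, 0)) * b.1 (Sum.inr (q, 1)) -
          a.1 (Sum.inr (q, 1)) * b.1 (Sum.inr (q, 0)))) := by
  obtain ⟨hx, hy, hi, hp⟩ := h
  obtain ⟨v, hv, hv0⟩ := (vt_iff hct htri x).1 hx
  obtain ⟨w, hw, hw0⟩ := (vt_iff hct htri y).1 hy
  rw [ind4 hct] at hi
  rw [prod_zero] at hp
  have hxv : ∀ u : Bs Γ, x.1 u = if u = Sum.inl (v, 0) then x.1 (Sum.inl (v, 0)) else 0 := by
    intro u
    split_ifs with hu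
    · rw [hu]
    · exact hv u hu
  have hyw : ∀ u : Bs Γ, y.1 u = if u = Sum.inl (w, 0) then y.1 (Sum.inl (w, 0)) else 0 := by
    intro u
    split_ifs with hu
    · rw [hu]
    · exact hw u hu
  have hvw : v ≠ w := by
    intro hvw
    subst hvw
    have := (hi (y.1 (Sum.inl (v, 0))) (- x.1 (Sum.inl (v, 0))) 0 0 (fun u => by
      by_cases hu : u = Sum.inl (v, 0)
      · rw [hu]; ring
      · rw [hv u hu, hw u hu]; ring)).1
    exact hw0 this
  have hyv : y.1 (Sum.inl (v, 0)) = 0 := hw _ (by simp [hvw])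
  have hxw : x.1 (Sum.inl (w, 0)) = 0 := hv _ (by simp [Ne.symm hvw])
  by_cases hq : ∃ q : {q : ℕ × ℕ // Eo Γ q.1 q.2},
      a.1 (Sum.inr (q, 0)) * b.1 (Sum.inr (q, 1)) - b.1 (Sum.inr (q, 0)) * a.1 (Sum.inr (q, 1)) ≠ 0
  · obtain ⟨q, hq⟩ := hq
    have hx0 : ∀ r, x.1 (Sum.inr r) = 0 := fun r => hv _ (by simp)
    have hy0 : ∀ r, y.1 (Sum.inr r) = 0 := fun r => hw _ (by simp)
    have hsup : ∀ b', (∀ i, b' ≠ Sum.inr (q, i)) → a.1 b' = 0 ∧ b.1 b' = 0 := by
      intro b' hb'
      have key : ∀ i : Fin 2, a.1 (Sum.inr (q, i)) * b.1 b' - b.1 (Sum.inr (q, i)) * a.1 b' = 0 := by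
        intro i
        rcases b' with b' | b'
        · have := hp.ve b' (q, i)
          simp only [hx0, hy0] at this
          linear_combination - this
        · have hne : q ≠ b'.1 := by
            intro he
            apply hb' b'.2
            rw [he]
          have := hp.ee (q, i) b' (Or.inl hne)
          simp only [hx0, hy0] at this
          linear_combination this
      exact two_two hq (key 0) (key 1)
    have he := hp.e q
    simp only [hx0, hy0] at he
    rw [(hsup (Sum.inl (q.1.1, 0)) (by simp)).1, (hsup (Sum.inl (q.1.1, 0)) (by simp)).2,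
      (hsup (Sum.inl (q.1.2, 0)) (by simp)).1, (hsup (Sum.inl (q.1.2, 0)) (by simp)).2] at he
    have he' : x.1 (Sum.inl (q.1.1, 0)) * y.1 (Sum.inl (q.1.2, 0)) -
        x.1 (Sum.inl (q.1.2, 0)) * y.1 (Sum.inl (q.1.1, 0)) =
        a.1 (Sum.inr (q, 0)) * b.1 (Sum.inr (q, 1)) - a.1 (Sum.inr (q, 1)) * b.1 (Sum.inr (q, 0)) := by
      linear_combination he
    refine ⟨q, v, w, hv, hv0, hw, hw0, hsup, ?_⟩
    by_cases hc1 : q.1.1 = v
    · left
      have hw1 : q.1.2 = w := by
        by_contra hne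
        rw [hw (Sum.inl (q.1.2, 0)) (by simp [hne]), hc1, hyv] at he'
        apply hq
        linear_combination - he'
      refine ⟨hc1.symm, hw1.symm, ?_⟩
      rw [hc1, hw1, hxw] at he'
      linear_combination he'
    · right
      rw [hv (Sum.inl (q.1.1, 0)) (by simp [hc1])] at he'
      have hv1 : q.1.2 = v := by
        by_contra hne
        rw [hv (Sum.inl (q.1.2, 0)) (by simp [hne])] at he'
        apply hq
        linear_combination - he'
      have hw1 : q.1.1 = w := by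
        by_contra hne
        rw [hw (Sum.inl (q.1.1, 0)) (by simp [hne])] at he'
        apply hq
        linear_combination - he'
      refine ⟨hv1.symm, hw1.symm, ?_⟩
      rw [hw1, hv1] at he'
      linear_combination he'
  · exfalso
    push Not at hq
    have hx0 : ∀ r, x.1 (Sum.inr r) = 0 := fun r => hv _ (by simp)
    have hy0 : ∀ r, y.1 (Sum.inr r) = 0 := fun r => hw _ (by simp)
    have hxi : ∀ (u : ℕ) (i : Fin 3), i ≠ 0 → x.1 (Sum.inl (u, i)) = 0 := fun u i hi => hv _ (by simp [hi])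
    have hyi : ∀ (u : ℕ) (i : Fin 3), i ≠ 0 → y.1 (Sum.inl (u, i)) = 0 := fun u i hi => hw _ (by simp [hi])
    -- the matrix of the relation vanishes at pairs of vertices
    have hN : ∀ v1 w1 : ℕ, (x.1 (Sum.inl (v1, 0)) * y.1 (Sum.inl (w1, 0)) +
        a.1 (Sum.inl (v1, 0)) * b.1 (Sum.inl (w1, 0))) - (x.1 (Sum.inl (w1, 0)) * y.1 (Sum.inl (v1, 0)) +
        a.1 (Sum.inl (w1, 0)) * b.1 (Sum.inl (v1, 0))) = 0 := by
      have h1 : ∀ v1 w1 : ℕ, v1 ≤ w1 → (x.1 (Sum.inl (v1, 0)) * y.1 (Sum.inl (w1, 0)) +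
        a.1 (Sum.inl (v1, 0)) * b.1 (Sum.inl (w1, 0))) - (x.1 (Sum.inl (w1, 0)) * y.1 (Sum.inl (v1, 0)) +
        a.1 (Sum.inl (w1, 0)) * b.1 (Sum.inl (v1, 0))) = 0 := by
        intro v1 w1 hle
        by_cases hE : Eo Γ v1 w1
        · have he := hp.e ⟨(v1, w1), hE⟩
          have hq' := hq ⟨(v1, w1), hE⟩
          simp only [hx0, hy0] at he
          linear_combination he + hq'
        · exact hp.vv v1 w1 hle hE
      intro v1 w1
      rcases le_total v1 w1 with h2 | h2
      · exact h1 v1 w1 h2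
      · linear_combination - (h1 w1 v1 h2)
    have hcd : x.1 (Sum.inl (v, 0)) * y.1 (Sum.inl (w, 0)) ≠ 0 := mul_ne_zero hv0 hw0
    -- rows of `a ∧ b`
    by_cases hm : ∃ i : Fin 3, i ≠ 0 ∧
        a.1 (Sum.inl (w, i)) * b.1 (Sum.inl (w, 0)) - b.1 (Sum.inl (w, i)) * a.1 (Sum.inl (w, 0)) ≠ 0
    · obtain ⟨i, hi0, hm⟩ := hm
      -- the row `(w, i)` is a multiple of `y`
      have hrow : ∀ u : Bs Γ, u ≠ Sum.inl (w, 0) →
          a.1 (Sum.inl (w, i)) * b.1 u - b.1 (Sum.inl (w, i)) * a.1 u = 0 := by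
        intro u hu
        rcases u with ⟨u, j⟩ | u
        · by_cases hj : j = 0
          · subst hj
            have hne : u ≠ w := fun h => hu (by rw [h])
            have := hp.v' u w i hi0 hne
            simp only [hxi _ i hi0, hyi _ i hi0] at this
            linear_combination - this
          · have := hp.v'' w u i j hi0 hj
            simp only [hxi _ i hi0, hyi _ i hi0, hxi _ j hj, hyi _ j hj] at this
            linear_combination this
        · have := hp.ve (w, i) u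
          simp only [hxi _ i hi0, hyi _ i hi0, hx0, hy0] at this
          linear_combination this
      have := (hi 0 (a.1 (Sum.inl (w, i)) * b.1 (Sum.inl (w, 0)) - b.1 (Sum.inl (w, i)) * a.1 (Sum.inl (w, 0)))
        (b.1 (Sum.inl (w, i)) * y.1 (Sum.inl (w, 0))) (- (a.1 (Sum.inl (w, i)) * y.1 (Sum.inl (w, 0))))
        (fun u => by
          by_cases hu : u = Sum.inl (w, 0)
          · rw [hu]; ring
          · rw [hw u hu]
            linear_combination (- y.1 (Sum.inl (w, 0))) * hrow u hu)).2.1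
      exact hm this
    · push Not at hm
      -- the row `(w, 0)` is a multiple of `x`
      have hrow : ∀ u : Bs Γ, u ≠ Sum.inl (v, 0) →
          a.1 (Sum.inl (w, 0)) * b.1 u - b.1 (Sum.inl (w, 0)) * a.1 u = 0 := by
        intro u hu
        rcases u with ⟨u, j⟩ | u
        · by_cases hj : j = 0
          · subst hj
            have hne : u ≠ v := fun h => hu (by rw [h])
            have := hN w u
            rw [hxw, hv (Sum.inl (u, 0)) (by simp [hne])] at this
            linear_combination this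
          · by_cases huw : u = w
            · subst huw
              linear_combination - (hm j hj)
            · have := hp.v' w u j hj (Ne.symm huw)
              simp only [hxi _ j hj, hyi _ j hj] at this
              linear_combination this
        · have := hp.ve (w, 0) u
          simp only [hx0, hy0] at this
          linear_combination this
      have hvv : a.1 (Sum.inl (w, 0)) * b.1 (Sum.inl (v, 0)) - b.1 (Sum.inl (w, 0)) * a.1 (Sum.inl (v, 0)) =
          x.1 (Sum.inl (v, 0)) * y.1 (Sum.inl (w, 0)) := by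
        have := hN w v
        rw [hxw] at this
        linear_combination this
      have := (hi (x.1 (Sum.inl (v, 0)) * y.1 (Sum.inl (w, 0))) 0
        (b.1 (Sum.inl (w, 0)) * x.1 (Sum.inl (v, 0))) (- (a.1 (Sum.inl (w, 0)) * x.1 (Sum.inl (v, 0))))
        (fun u => by
          by_cases hu : u = Sum.inl (v, 0)
          · rw [hu]; linear_combination (- x.1 (Sum.inl (v, 0))) * hvv
          · rw [hv u hu]
            linear_combination (- x.1 (Sum.inl (v, 0))) * hrow u hu)).1
      exact hcd this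

/-- from coordinates to edges -/
theorem qd_mpr (hct : T_ct p Γ) (htri : T_tri p Γ) (x y a b : SA p Γ)
    (q : {q : ℕ × ℕ // Eo Γ q.1 q.2}) (v w : ℕ)
    (hv : ∀ b, b ≠ Sum.inl (v, 0) → x.1 b = 0) (hv0 : x.1 (Sum.inl (v, 0)) ≠ 0)
    (hw : ∀ b, b ≠ Sum.inl (w, 0) → y.1 b = 0) (hw0 : y.1 (Sum.inl (w, 0)) ≠ 0)
    (hs : ∀ b', (∀ i, b' ≠ Sum.inr (q, i)) → a.1 b' = 0 ∧ b.1 b' = 0)
    (h : (v = q.1.1 ∧ w = q.1.2 ∧ x.1 (Sum.inl (v, 0)) * y.1 (Sum.inl (w, 0)) =
        a.1 (Sum.inr (q, 0)) * b.1 (Sum.inr (q, 1)) -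
          a.1 (Sum.inr (q, 1)) * b.1 (Sum.inr (q, 0))) ∨
      (v = q.1.2 ∧ w = q.1.1 ∧ - (x.1 (Sum.inl (v, 0)) * y.1 (Sum.inl (w, 0))) =
        a.1 (Sum.inr (q, 0)) * b.1 (Sum.inr (q, 1)) -
          a.1 (Sum.inr (q, 1)) * b.1 (Sum.inr (q, 0)))) : QdA p x y a b := by
  have hq : q.1.1 < q.1.2 := q.2.1
  have hvw : v ≠ w := by
    rcases h with h | h
    · rw [h.1, h.2.1]; omega
    · rw [h.1, h.2.1]; omega
  have hyv : y.1 (Sum.inl (v, 0)) = 0 := hw _ (by simp [hvw])
  have hxw : x.1 (Sum.inl (w, 0)) = 0 := hv _ (by simp [Ne.symm hvw])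
  have hcd : x.1 (Sum.inl (v, 0)) * y.1 (Sum.inl (w, 0)) ≠ 0 := mul_ne_zero hv0 hw0
  have hD : a.1 (Sum.inr (q, 0)) * b.1 (Sum.inr (q, 1)) -
      a.1 (Sum.inr (q, 1)) * b.1 (Sum.inr (q, 0)) ≠ 0 := by
    rcases h with h | h
    · rw [← h.2.2]; exact hcd
    · rw [← h.2.2]; exact neg_ne_zero.2 hcd
  have hx0 : ∀ r, x.1 (Sum.inr r) = 0 := fun r => hv _ (by simp)
  have hy0 : ∀ r, y.1 (Sum.inr r) = 0 := fun r => hw _ (by simp)
  have ha0 : ∀ r, a.1 (Sum.inl r) = 0 := fun r => (hs _ (by simp)).1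
  have hb0 : ∀ r, b.1 (Sum.inl r) = 0 := fun r => (hs _ (by simp)).2
  have hxi : ∀ (u : ℕ) (i : Fin 3), i ≠ 0 → x.1 (Sum.inl (u, i)) = 0 := fun u i hi => hv _ (by simp [hi])
  have hyi : ∀ (u : ℕ) (i : Fin 3), i ≠ 0 → y.1 (Sum.inl (u, i)) = 0 := fun u i hi => hw _ (by simp [hi])
  have hxy : ∀ v1 w1 : ℕ, ¬ (v1 = v ∧ w1 = w) → x.1 (Sum.inl (v1, 0)) * y.1 (Sum.inl (w1, 0)) = 0 := by
    intro v1 w1 hne
    by_cases h1 : v1 = v
    · have h2 : w1 ≠ w := fun h2 => hne ⟨h1, h2⟩
      rw [hw (Sum.inl (w1, 0)) (by simp [h2]), mul_zero]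
    · rw [hv (Sum.inl (v1, 0)) (by simp [h1]), zero_mul]
  refine ⟨(vt_iff hct htri x).2 ⟨v, hv, hv0⟩, (vt_iff hct htri y).2 ⟨w, hw, hw0⟩, ?_, ?_⟩
  · rw [ind4 hct]
    intro c0 c1 c2 c3 hc
    have e0 := hc (Sum.inl (v, 0))
    have e1 := hc (Sum.inl (w, 0))
    have e2 := hc (Sum.inr (q, 0))
    have e3 := hc (Sum.inr (q, 1))
    rw [hyv, ha0, hb0] at e0
    rw [hxw, ha0, hb0] at e1
    rw [hx0, hy0] at e2 e3
    have f0 : c0 * x.1 (Sum.inl (v, 0)) = 0 := by linear_combination e0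
    have f1 : c1 * y.1 (Sum.inl (w, 0)) = 0 := by linear_combination e1
    have f2 : c2 * (a.1 (Sum.inr (q, 0)) * b.1 (Sum.inr (q, 1)) -
      a.1 (Sum.inr (q, 1)) * b.1 (Sum.inr (q, 0))) = 0 := by
      linear_combination b.1 (Sum.inr (q, 1)) * e2 - b.1 (Sum.inr (q, 0)) * e3
    have f3 : c3 * (a.1 (Sum.inr (q, 0)) * b.1 (Sum.inr (q, 1)) -
      a.1 (Sum.inr (q, 1)) * b.1 (Sum.inr (q, 0))) = 0 := by
      linear_combination a.1 (Sum.inr (q, 0)) * e3 - a.1 (Sum.inr (q, 1)) * e2
    exact ⟨(mul_eq_zero.1 f0).resolve_right hv0, (mul_eq_zero.1 f1).resolve_right hw0,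
      (mul_eq_zero.1 f2).resolve_right hD, (mul_eq_zero.1 f3).resolve_right hD⟩
  · rw [prod_zero]
    refine ⟨fun v1 w1 hle hE => ?_, fun q' => ?_, fun v1 w1 i hi hne => ?_, fun v1 w1 i j hi hj => ?_,
      fun v1 q' => ?_, fun q' q'' hqq => ?_⟩
    · rw [ha0, hb0, ha0, hb0]
      have k1 : x.1 (Sum.inl (v1, 0)) * y.1 (Sum.inl (w1, 0)) = 0 := by
        apply hxy
        rintro ⟨h1, h2⟩
        rcases h with h | h
        · apply hE
          rw [h1, h2, h.1, h.2.1]
          exact q.2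
        · have := h.1
          have := h.2.1
          omega
      have k2 : x.1 (Sum.inl (w1, 0)) * y.1 (Sum.inl (v1, 0)) = 0 := by
        apply hxy
        rintro ⟨h1, h2⟩
        rcases h with h | h
        · have := h.1
          have := h.2.1
          omega
        · apply hE
          rw [h1, h2, h.1, h.2.1]
          exact q.2
      linear_combination k1 - k2
    · simp only [ha0, hb0, hx0, hy0]
      by_cases hqq : q' = q
      · subst hqq
        rcases h with h | h
        · rw [← h.1, ← h.2.1, hxw]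
          linear_combination h.2.2
        · rw [← h.1, ← h.2.1, hxw]
          linear_combination h.2.2
      · have z1 : a.1 (Sum.inr (q', 0)) = 0 := (hs _ (by
          intro i he
          apply hqq
          have := Sum.inr_injective he
          exact congrArg Prod.fst this)).1
        have z2 : b.1 (Sum.inr (q', 0)) = 0 := (hs _ (by
          intro i he
          apply hqq
          have := Sum.inr_injective he
          exact congrArg Prod.fst this)).2
        rw [z1, z2]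
        have hq' : q'.1.1 < q'.1.2 := q'.2.1
        have k1 : x.1 (Sum.inl (q'.1.1, 0)) * y.1 (Sum.inl (q'.1.2, 0)) = 0 := by
          apply hxy
          rintro ⟨h1, h2⟩
          rcases h with h | h
          · apply hqq
            apply Subtype.ext
            exact Prod.ext (h1.trans h.1) (h2.trans h.2.1)
          · have := h.1
            have := h.2.1
            omega
        have k2 : x.1 (Sum.inl (q'.1.2, 0)) * y.1 (Sum.inl (q'.1.1, 0)) = 0 := by
          apply hxy
          rintro ⟨h1, h2⟩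
          rcases h with h | h
          · have := h.1
            have := h.2.1
            omega
          · apply hqq
            apply Subtype.ext
            exact Prod.ext (h2.trans h.2.1) (h1.trans h.1)
        linear_combination k1 - k2
    · simp only [ha0, hb0, hxi _ i hi, hyi _ i hi]
      ring
    · simp only [ha0, hb0, hxi _ i hi, hyi _ i hi, hxi _ j hj, hyi _ j hj]
      ring
    · simp only [ha0, hb0, hx0, hy0]
      ring
    · simp only [hx0, hy0]
      by_cases h1 : q'.1 = q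
      · by_cases h2 : q''.1 = q
        · have h3 : q' = q'' := by
            rcases hqq with hqq | hqq
            · exact absurd (h1.trans h2.symm) hqq
            · exact Prod.ext (h1.trans h2.symm) hqq
          rw [h3]
          ring
        · have z := hs (Sum.inr q'') (by
            intro i he
            apply h2
            have := Sum.inr_injective he
            rw [this])
          rw [z.1, z.2]
          ring
      · have z := hs (Sum.inr q') (by
          intro i he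
          apply h1
          have := Sum.inr_injective he
          rw [this])
        rw [z.1, z.2]
        ring

end

end Pool.Agent.H358.FV.OddQd

namespace Pool.Agent.H358.FV

open Pool.Agent.H4.FV.Odd

theorem qd : S_qd := by
  intro p _ hp Γ hct htri x y a b
  constructor
  · exact OddQd.qd_mp hct htri x y a b
  · rintro ⟨q, v, w, h1, h2, h3, h4, h5, h6⟩
    exact OddQd.qd_mpr hct htri x y a b q v w h1 h2 h3 h4 h5 h6

end Pool.Agent.H358.FV
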